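import Pool.Agent.H53.CZ.Targets

/-!
# Module GLE: good triples are counted by later neighbours
-/

namespace Pool.Agent.H4.CZ

open Finset Pool.Agent.H53.CZD

variable {ι : Type} [Fintype ι] [DecidableEq ι]

/-- Triangles. -/
def TriT (S C : Finset (ι → ZMod 2)) : Finset ((ι → ZMod 2) × (ι → ZMod 2) × (ι → ZMod 2)) :=
  {p ∈ C ×ˢ C ×ˢ C | p.1 + p.2.1 ∈ S ∧ p.1 + p.2.2 ∈ S ∧ p.2.1 + p.2.2 ∈ S}

/-- Parallelograms. -/
def ParT (S C : Finset (ι → ZMod 2)) : Finset ((ι → ZMod 2) × (ι → ZMod 2) × (ι → ZMod 2)) :=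
  {p ∈ C ×ˢ C ×ˢ C | p.1 + p.2.1 ∈ S ∧ p.1 + p.2.2 ∈ S ∧ p.2.1 ≠ p.2.2 ∧
    p.1 + p.2.1 + p.2.2 ∈ C}

theorem good_le (S C : Finset (ι → ZMod 2)) : good S C ≤ #(TriT S C) + #(ParT S C) := by
  refine le_trans (Finset.card_le_card ?_) (Finset.card_union_le _ _)
  intro p hp
  simp only [TriT, ParT, Finset.mem_union, Finset.mem_filter] at hp ⊢
  obtain ⟨h1, h2, h3, h4, h5 | h5⟩ := hp
  · exact Or.inl ⟨h1, h2, h3, h5⟩
  · exact Or.inr ⟨h1, h2, h3, h4, h5⟩

theorem ne_of_add_mem {S : Finset (ι → ZMod 2)} (h0 : (0 : ι → ZMod 2) ∉ S) {x y : ι → ZMod 2}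
    (h : x + y ∈ S) : x ≠ y := by
  rintro rfl
  apply h0
  have e : x + x = 0 := by
    funext i
    have h : ∀ a : ZMod 2, a + a = 0 := by decide
    exact h (x i)
  rwa [e] at h

theorem tri_le (S C : Finset (ι → ZMod 2)) (r : (ι → ZMod 2) → ℕ)
    (hr : ∀ x ∈ C, ∀ y ∈ C, r x = r y → x = y) (h0 : (0 : ι → ZMod 2) ∉ S) :
    #(TriT S C) ≤ 3 * #{p ∈ TriT S C | r p.1 < r p.2.1 ∧ r p.1 < r p.2.2} := by
  set P := {p ∈ TriT S C | r p.1 < r p.2.1 ∧ r p.1 < r p.2.2} with hP
  have hsub : TriT S C ⊆ P ∪ (P.image (fun p => (p.2.1, p.1, p.2.2)) ∪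
      P.image (fun p => (p.2.2, p.2.1, p.1))) := by
    rintro ⟨x, y, w⟩ hp
    have hp' := hp
    simp only [TriT, Finset.mem_filter, Finset.mem_product] at hp
    obtain ⟨⟨hx, hy, hw⟩, h1, h2, h3⟩ := hp
    have n1 : r x ≠ r y := fun e => ne_of_add_mem h0 h1 (hr x hx y hy e)
    have n2 : r x ≠ r w := fun e => ne_of_add_mem h0 h2 (hr x hx w hw e)
    have n3 : r y ≠ r w := fun e => ne_of_add_mem h0 h3 (hr y hy w hw e)
    by_cases c1 : r x < r y ∧ r x < r w
    · exact Finset.mem_union_left _ (Finset.mem_filter.mpr ⟨hp', c1⟩)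
    · by_cases c2 : r y < r x ∧ r y < r w
      · refine Finset.mem_union_right _ (Finset.mem_union_left _ (Finset.mem_image.mpr
          ⟨(y, x, w), ?_, rfl⟩))
        rw [hP, Finset.mem_filter]
        refine ⟨?_, c2⟩
        simp only [TriT, Finset.mem_filter, Finset.mem_product]
        exact ⟨⟨hy, hx, hw⟩, by rwa [add_comm], h3, h2⟩
      · have c3 : r w < r y ∧ r w < r x := by omega
        refine Finset.mem_union_right _ (Finset.mem_union_right _ (Finset.mem_image.mpr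
          ⟨(w, y, x), ?_, rfl⟩))
        rw [hP, Finset.mem_filter]
        refine ⟨?_, c3⟩
        simp only [TriT, Finset.mem_filter, Finset.mem_product]
        exact ⟨⟨hw, hy, hx⟩, by rwa [add_comm], by rwa [add_comm], by rwa [add_comm]⟩
  have h1 := Finset.card_le_card hsub
  have h2 := Finset.card_union_le P (P.image (fun p => (p.2.1, p.1, p.2.2)) ∪
      P.image (fun p => (p.2.2, p.2.1, p.1)))
  have h3 := Finset.card_union_le (P.image (fun p => (p.2.1, p.1, p.2.2)))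
      (P.image (fun p => (p.2.2, p.2.1, p.1)))
  have h4 : #(P.image (fun p => (p.2.1, p.1, p.2.2))) ≤ #P := Finset.card_image_le
  have h5 : #(P.image (fun p => (p.2.2, p.2.1, p.1))) ≤ #P := Finset.card_image_le
  omega

theorem z2a (x y w : ι → ZMod 2) : y + (x + y + w) = x + w := by
  funext i
  have h : ∀ a b c : ZMod 2, b + (a + b + c) = a + c := by decide
  exact h (x i) (y i) (w i)

theorem z2b (x y w : ι → ZMod 2) : y + x + (x + y + w) = w := by
  funext i
  have h : ∀ a b c : ZMod 2, b + a + (a + b + c) = c := by decide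
  exact h (x i) (y i) (w i)

theorem z2c (x y w : ι → ZMod 2) : w + (x + y + w) = x + y := by
  funext i
  have h : ∀ a b c : ZMod 2, c + (a + b + c) = a + b := by decide
  exact h (x i) (y i) (w i)

theorem z2d (x y w : ι → ZMod 2) : w + (x + y + w) + x = y := by
  funext i
  have h : ∀ a b c : ZMod 2, c + (a + b + c) + a = b := by decide
  exact h (x i) (y i) (w i)

theorem z2e (x y w : ι → ZMod 2) : x + y + w + w + y = x := by
  funext i
  have h : ∀ a b c : ZMod 2, a + b + c + c + b = a := by decide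
  exact h (x i) (y i) (w i)

theorem z2f {x y w : ι → ZMod 2} (h : x + y + w = x) : y = w := by
  funext i
  have h' : ∀ a b c : ZMod 2, a + b + c = a → b = c := by decide
  exact h' (x i) (y i) (w i) (congrFun h i)

theorem z2g {x y w : ι → ZMod 2} (h : x + y + w = y) : x = w := by
  funext i
  have h' : ∀ a b c : ZMod 2, a + b + c = b → a = c := by decide
  exact h' (x i) (y i) (w i) (congrFun h i)

theorem z2h {x y w : ι → ZMod 2} (h : x + y + w = w) : x = y := by
  funext i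
  have h' : ∀ a b c : ZMod 2, a + b + c = c → a = b := by decide
  exact h' (x i) (y i) (w i) (congrFun h i)

theorem par_le (S C : Finset (ι → ZMod 2)) (r : (ι → ZMod 2) → ℕ)
    (hr : ∀ x ∈ C, ∀ y ∈ C, r x = r y → x = y) (h0 : (0 : ι → ZMod 2) ∉ S) :
    #(ParT S C) ≤ 4 * #{p ∈ ParT S C | r p.1 < r p.2.1 ∧ r p.1 < r p.2.2} := by
  set P := {p ∈ ParT S C | r p.1 < r p.2.1 ∧ r p.1 < r p.2.2} with hP
  have hsub : ParT S C ⊆ P ∪ (P.image (fun p => (p.2.1, p.1, p.1 + p.2.1 + p.2.2)) ∪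
      (P.image (fun p => (p.2.2, p.1 + p.2.1 + p.2.2, p.1)) ∪
       P.image (fun p => (p.1 + p.2.1 + p.2.2, p.2.2, p.2.1)))) := by
    rintro ⟨x, y, w⟩ hp
    have hp' := hp
    simp only [ParT, Finset.mem_filter, Finset.mem_product] at hp
    obtain ⟨⟨hx, hy, hw⟩, h1, h2, h3, hk⟩ := hp
    have m1 : x ≠ y := ne_of_add_mem h0 h1
    have m2 : x ≠ w := ne_of_add_mem h0 h2
    have n1 : r x ≠ r y := fun e => m1 (hr x hx y hy e)
    have n2 : r x ≠ r w := fun e => m2 (hr x hx w hw e)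
    have n3 : r y ≠ r w := fun e => h3 (hr y hy w hw e)
    have n4 : r (x + y + w) ≠ r x := fun e => h3 (z2f (hr _ hk x hx e))
    have n5 : r (x + y + w) ≠ r y := fun e => m2 (z2g (hr _ hk y hy e))
    have n6 : r (x + y + w) ≠ r w := fun e => m1 (z2h (hr _ hk w hw e))
    by_cases c1 : r x < r y ∧ r x < r w
    · exact Finset.mem_union_left _ (Finset.mem_filter.mpr ⟨hp', c1⟩)
    · by_cases c2 : r y < r x ∧ r y < r (x + y + w)
      · refine Finset.mem_union_right _ (Finset.mem_union_left _ (Finset.mem_image.mpr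
          ⟨(y, x, x + y + w), ?_, ?_⟩))
        · rw [hP, Finset.mem_filter]
          refine ⟨?_, c2⟩
          simp only [ParT, Finset.mem_filter, Finset.mem_product]
          refine ⟨⟨hy, hx, hk⟩, by rwa [add_comm], by rwa [z2a], ?_, by rwa [z2b]⟩
          exact fun e => h3 (z2f e.symm)
        · show (x, y, y + x + (x + y + w)) = (x, y, w)
          rw [z2b]
      · by_cases c3 : r w < r (x + y + w) ∧ r w < r x
        · refine Finset.mem_union_right _ (Finset.mem_union_right _ (Finset.mem_union_left _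
            (Finset.mem_image.mpr ⟨(w, x + y + w, x), ?_, ?_⟩)))
          · rw [hP, Finset.mem_filter]
            refine ⟨?_, c3⟩
            simp only [ParT, Finset.mem_filter, Finset.mem_product]
            refine ⟨⟨hw, hk, hx⟩, by rwa [z2c], by rwa [add_comm], ?_, by rwa [z2d]⟩
            exact fun e => h3 (z2f e)
          · show (x, w + (x + y + w) + x, w) = (x, y, w)
            rw [z2d]
        · have c4 : r (x + y + w) < r w ∧ r (x + y + w) < r y := by omega
          refine Finset.mem_union_right _ (Finset.mem_union_right _ (Finset.mem_union_right _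
            (Finset.mem_image.mpr ⟨(x + y + w, w, y), ?_, ?_⟩)))
          · rw [hP, Finset.mem_filter]
            refine ⟨?_, c4⟩
            simp only [ParT, Finset.mem_filter, Finset.mem_product]
            refine ⟨⟨hk, hw, hy⟩, ?_, ?_, fun e => h3 e.symm, by rwa [z2e]⟩
            · rw [add_comm, z2c]
              exact h1
            · rw [add_comm, z2a]
              exact h2
          · show (x + y + w + w + y, y, w) = (x, y, w)
            rw [z2e]
  have h1 := Finset.card_le_card hsub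
  have h2 := Finset.card_union_le P (P.image (fun p => (p.2.1, p.1, p.1 + p.2.1 + p.2.2)) ∪
      (P.image (fun p => (p.2.2, p.1 + p.2.1 + p.2.2, p.1)) ∪
       P.image (fun p => (p.1 + p.2.1 + p.2.2, p.2.2, p.2.1))))
  have h3 := Finset.card_union_le (P.image (fun p => (p.2.1, p.1, p.1 + p.2.1 + p.2.2)))
      (P.image (fun p => (p.2.2, p.1 + p.2.1 + p.2.2, p.1)) ∪
       P.image (fun p => (p.1 + p.2.1 + p.2.2, p.2.2, p.2.1)))
  have h3' := Finset.card_union_le (P.image (fun p => (p.2.2, p.1 + p.2.1 + p.2.2, p.1)))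
       (P.image (fun p => (p.1 + p.2.1 + p.2.2, p.2.2, p.2.1)))
  have h4 : #(P.image (fun p => (p.2.1, p.1, p.1 + p.2.1 + p.2.2))) ≤ #P :=
    Finset.card_image_le
  have h5 : #(P.image (fun p => (p.2.2, p.1 + p.2.1 + p.2.2, p.1))) ≤ #P :=
    Finset.card_image_le
  have h6 : #(P.image (fun p => (p.1 + p.2.1 + p.2.2, p.2.2, p.2.1))) ≤ #P :=
    Finset.card_image_le
  omega

theorem triMin_le (S C : Finset (ι → ZMod 2)) (r : (ι → ZMod 2) → ℕ) :
    #{p ∈ TriT S C | r p.1 < r p.2.1 ∧ r p.1 < r p.2.2} ≤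
      ∑ x ∈ C, #{p ∈ later S C r x ×ˢ later S C r x | p.1 + p.2 ∈ S} := by
  rw [← Finset.card_sigma]
  refine Finset.card_le_card_of_injOn (fun p => ⟨p.1, p.2⟩) ?_ ?_
  · rintro ⟨x, y, w⟩ hp
    simp only [TriT, Finset.coe_filter, Set.mem_setOf_eq, Finset.mem_filter,
      Finset.mem_product] at hp
    simp only [later, Finset.coe_sigma, Set.mem_sigma_iff, Finset.mem_coe, Finset.mem_filter,
      Finset.mem_product]
    obtain ⟨⟨⟨hx, hy, hw⟩, h1, h2, h3⟩, h4, h5⟩ := hp
    exact ⟨hx, ⟨⟨hy, h1, h4⟩, ⟨hw, h2, h5⟩⟩, h3⟩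
  · rintro ⟨x, y, w⟩ - ⟨x', y', w'⟩ - he
    simp only [Sigma.mk.injEq, heq_eq_eq, Prod.mk.injEq] at he
    obtain ⟨rfl, rfl, rfl⟩ := he
    rfl

theorem parMin_le (S C : Finset (ι → ZMod 2)) (r : (ι → ZMod 2) → ℕ) :
    #{p ∈ ParT S C | r p.1 < r p.2.1 ∧ r p.1 < r p.2.2} ≤
      ∑ x ∈ C, #{p ∈ later S C r x ×ˢ later S C r x | p.1 ≠ p.2 ∧ x + p.1 + p.2 ∈ C} := by
  rw [← Finset.card_sigma]
  refine Finset.card_le_card_of_injOn (fun p => ⟨p.1, p.2⟩) ?_ ?_
  · rintro ⟨x, y, w⟩ hp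
    simp only [ParT, Finset.coe_filter, Set.mem_setOf_eq, Finset.mem_filter,
      Finset.mem_product] at hp
    simp only [later, Finset.coe_sigma, Set.mem_sigma_iff, Finset.mem_coe, Finset.mem_filter,
      Finset.mem_product]
    obtain ⟨⟨⟨hx, hy, hw⟩, h1, h2, h3, hk⟩, h4, h5⟩ := hp
    exact ⟨hx, ⟨⟨hy, h1, h4⟩, ⟨hw, h2, h5⟩⟩, h3, hk⟩
  · rintro ⟨x, y, w⟩ - ⟨x', y', w'⟩ - he
    simp only [Sigma.mk.injEq, heq_eq_eq, Prod.mk.injEq] at he
    obtain ⟨rfl, rfl, rfl⟩ := he
    rfl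

theorem gle : GLE := by
  intro ι _ _ S C r hr h0
  have h1 := good_le S C
  have h2 := tri_le S C r hr h0
  have h3 := par_le S C r hr h0
  have h4 := triMin_le S C r
  have h5 := parMin_le S C r
  rw [Finset.sum_add_distrib]
  omega

end Pool.Agent.H4.CZ
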