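import Pool.Agent.H53.CZ.Targets

/-!
# Module GS: double counting of edges and good triples
-/

namespace Pool.Agent.H4.CZ

open Finset Pool.Agent.H53.CZD

theorem addSelf {ι : Type} (x : ι → ZMod 2) : x + x = 0 := by
  funext i
  have h : ∀ a : ZMod 2, a + a = 0 := by decide
  exact h (x i)

theorem addAddSelf {ι : Type} (x y : ι → ZMod 2) : x + (x + y) = y := by
  rw [← add_assoc, addSelf, zero_add]

theorem gs : GS := by
  intro ι _ _ S C
  constructor
  · rw [← Finset.card_sigma, ecount]
    refine Finset.card_nbij' (fun q => (q.2, q.2 + q.1)) (fun p => ⟨p.1 + p.2, p.1⟩) ?_ ?_ ?_ ?_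
    · rintro ⟨h, x⟩ hq
      simp only [Finset.coe_sigma, Set.mem_sigma_iff, Finset.mem_coe, Finset.mem_filter] at hq
      simp only [Finset.coe_filter, Set.mem_setOf_eq, Finset.mem_product]
      refine ⟨⟨hq.2.1, hq.2.2⟩, ?_⟩
      rw [addAddSelf]
      exact hq.1
    · rintro ⟨x, y⟩ hp
      simp only [Finset.coe_filter, Set.mem_setOf_eq, Finset.mem_product] at hp
      simp only [Finset.coe_sigma, Set.mem_sigma_iff, Finset.mem_coe, Finset.mem_filter]
      refine ⟨hp.2, hp.1.1, ?_⟩
      rw [addAddSelf]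
      exact hp.1.2
    · rintro ⟨h, x⟩ -
      simp only [addAddSelf]
    · rintro ⟨x, y⟩ -
      simp only [addAddSelf]
  · have h1 : ∀ h ∈ S, (∑ x ∈ C with x + h ∈ C, gd S C x h) =
        #(({x ∈ C | x + h ∈ C}).sigma fun x =>
          {w ∈ C | w ≠ x + h ∧ x + w ∈ S ∧ (w + x + h ∈ S ∨ w + h ∈ C)}) := by
      intro h _
      rw [Finset.card_sigma]
      rfl
    rw [Finset.sum_congr rfl h1, ← Finset.card_sigma, good]
    refine Finset.card_nbij' (fun q => (q.2.1, q.2.1 + q.1, q.2.2))
      (fun p => ⟨p.1 + p.2.1, p.1, p.2.2⟩) ?_ ?_ ?_ ?_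
    · rintro ⟨h, x, w⟩ hq
      simp only [Finset.coe_sigma, Set.mem_sigma_iff, Finset.mem_coe, Finset.mem_filter] at hq
      simp only [Finset.coe_filter, Set.mem_setOf_eq, Finset.mem_product]
      obtain ⟨q1, ⟨q2, q3⟩, q4, q5, q6, q7⟩ := hq
      refine ⟨⟨q2, q3, q4⟩, ?_, q6, fun hh => q5 hh.symm, ?_⟩
      · rw [addAddSelf]
        exact q1
      · rw [addAddSelf]
        rcases q7 with q7 | q7
        · left
          have e : x + h + w = w + x + h := by abel
          rw [e]
          exact q7
        · right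
          rw [add_comm h w]
          exact q7
    · rintro ⟨x, y, w⟩ hp
      simp only [Finset.coe_filter, Set.mem_setOf_eq, Finset.mem_product] at hp
      simp only [Finset.coe_sigma, Set.mem_sigma_iff, Finset.mem_coe, Finset.mem_filter]
      obtain ⟨⟨p1, p2, p3⟩, p4, p5, p6, p7⟩ := hp
      refine ⟨p4, ⟨p1, ?_⟩, p3, ?_, p5, ?_⟩
      · rw [addAddSelf]
        exact p2
      · rw [addAddSelf]
        exact fun hh => p6 hh.symm
      · rcases p7 with p7 | p7
        · left
          have e : w + x + (x + y) = y + w := by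
            rw [add_assoc, addAddSelf, add_comm]
          rw [e]
          exact p7
        · right
          have e : w + (x + y) = x + y + w := by abel
          rw [e]
          exact p7
    · rintro ⟨h, x, w⟩ -
      simp only [addAddSelf]
    · rintro ⟨x, y, w⟩ -
      simp only [addAddSelf]

end Pool.Agent.H4.CZ
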