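import Pool.Agent.H53.CZ.Targets

/-!
# Module LIFT: lifting a rich configuration through a linear map
-/

namespace Pool.Agent.H4.CZ

open Finset Pool.Agent.H53.CZD

theorem lift : LIFT := by
  intro ι _ _ S p D0 hD0 hp0 hker q hR
  obtain ⟨D', a', b', z', hD', ha', hb', hz', hzz, hind⟩ := hR
  have hl : ∀ y ∈ (S.image p).erase 0, ∃ x ∈ S, p x = y := by
    intro y hy
    exact Finset.mem_image.mp (Finset.mem_of_mem_erase hy)
  choose g hgS hgp using hl
  set D1 : Set (ι → ZMod 2) := {s | s ∈ S ∧ p s ∈ D'} with hD1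
  have hD1S : D1 ⊆ ↑S := fun s hs => hs.1
  have hDS : D0 ∪ D1 ⊆ (S : Set (ι → ZMod 2)) := Set.union_subset hD0 hD1S
  have hmap : ∀ x ∈ Submodule.span (ZMod 2) (D0 ∪ D1), p x ∈ Submodule.span (ZMod 2) D' := by
    intro x hx
    have h1 : Submodule.span (ZMod 2) (D0 ∪ D1) ≤ (Submodule.span (ZMod 2) D').comap p := by
      refine Submodule.span_le.mpr ?_
      rintro s (hs | hs)
      · show p s ∈ Submodule.span (ZMod 2) D'
        rw [hp0 s hs]
        exact Submodule.zero_mem _
      · exact Submodule.subset_span hs.2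
    exact h1 hx
  have hback : ∀ y ∈ Submodule.span (ZMod 2) D', ∃ d ∈ Submodule.span (ZMod 2) D1, p d = y := by
    intro y hy
    have h1 : Submodule.span (ZMod 2) D' ≤ (Submodule.span (ZMod 2) D1).map p := by
      refine Submodule.span_le.mpr ?_
      intro y hy
      have hy' := hD' hy
      have h2 : y ∈ (S.image p).erase 0 := hy'
      refine ⟨g y h2, Submodule.subset_span ⟨hgS y h2, ?_⟩, hgp y h2⟩
      rw [hgp y h2]
      exact hy
    obtain ⟨d, hd, hdy⟩ := h1 hy
    exact ⟨d, hd, hdy⟩
  refine ⟨D0 ∪ D1, fun i => g _ (ha' i), fun j => g _ (hb' j), fun i j => g _ (hz' i j), hDS,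
    fun i => hgS _ _, fun j => hgS _ _, fun i j => hgS _ _, ?_, ?_⟩
  · intro i j
    have hw : g _ (hz' i j) + g _ (ha' i) + g _ (hb' j) ∈
        Submodule.span (ZMod 2) (S : Set (ι → ZMod 2)) :=
      Submodule.add_mem _ (Submodule.add_mem _ (Submodule.subset_span (hgS _ _))
        (Submodule.subset_span (hgS _ _))) (Submodule.subset_span (hgS _ _))
    have hpw : p (g _ (hz' i j) + g _ (ha' i) + g _ (hb' j)) ∈ Submodule.span (ZMod 2) D' := by
      rw [map_add, map_add, hgp, hgp, hgp]
      exact hzz i j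
    obtain ⟨d, hd, hdy⟩ := hback _ hpw
    have hdS : d ∈ Submodule.span (ZMod 2) (S : Set (ι → ZMod 2)) := Submodule.span_mono hD1S hd
    have h3 := hker _ (Submodule.sub_mem _ hw hdS) (by rw [map_sub, hdy, sub_self])
    have h4 := Submodule.add_mem _ (Submodule.span_mono (Set.subset_union_left (t := D1)) h3)
      (Submodule.span_mono (Set.subset_union_right (s := D0)) hd)
    rw [sub_add_cancel] at h4
    exact h4
  · intro x y hxy
    have h1 := hmap _ hxy
    rw [map_add, map_sum, map_sum] at h1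
    simp only [map_smul, hgp] at h1
    exact hind x y h1

end Pool.Agent.H4.CZ
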