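import Pool.Agent.H53.CZ.Targets

/-!
# Module RK: degeneracy order
-/

namespace Pool.Agent.H4.CZ

open Finset Pool.Agent.H53.CZD

theorem rk : RK := by
  intro ι _ _ S C
  induction C using Finset.strongInduction with
  | H C ih =>
    intro D hC
    rcases C.eq_empty_or_nonempty with h0 | h0
    · subst h0
      exact ⟨fun _ => 0, by simp, by simp⟩
    · obtain ⟨x, hxC, hxD⟩ := hC C (Finset.Subset.refl _) h0
      obtain ⟨r', hr1, hr2⟩ := ih (C.erase x) (Finset.erase_ssubset hxC) D
        (fun C1 h1 h2 => hC C1 (h1.trans (Finset.erase_subset _ _)) h2)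
      refine ⟨fun y => if y = x then 0 else r' y + 1, ?_, ?_⟩
      · intro a ha b hb hab
        beta_reduce at hab
        by_cases hax : a = x
        · by_cases hbx : b = x
          · rw [hax, hbx]
          · rw [if_pos hax, if_neg hbx] at hab
            omega
        · by_cases hbx : b = x
          · rw [if_neg hax, if_pos hbx] at hab
            omega
          · rw [if_neg hax, if_neg hbx] at hab
            exact hr1 a (Finset.mem_erase.mpr ⟨hax, ha⟩) b (Finset.mem_erase.mpr ⟨hbx, hb⟩)
              (by omega)
      · intro y hy
        by_cases hyx : y = x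
        · rw [hyx]
          refine le_trans (Finset.card_le_card ?_) hxD
          intro z hz
          simp only [later, Finset.mem_filter] at hz ⊢
          exact ⟨hz.1, hz.2.1⟩
        · refine le_trans (Finset.card_le_card ?_) (hr2 y (Finset.mem_erase.mpr ⟨hyx, hy⟩))
          intro z hz
          simp only [later, Finset.mem_filter] at hz ⊢
          obtain ⟨hz1, hz2, hz3⟩ := hz
          rw [if_neg hyx] at hz3
          by_cases hzx : z = x
          · rw [if_pos hzx] at hz3
            omega
          · rw [if_neg hzx] at hz3
            exact ⟨Finset.mem_erase.mpr ⟨hzx, hz1⟩, hz2, by omega⟩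

end Pool.Agent.H4.CZ
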